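import Pool.Agent.Y269.EL.Stm2

/-!
Project EL, job SEC: sections of the blocks of a projection.
-/

set_option autoImplicit false
set_option linter.unusedSectionVars false

namespace Pool.Agent.Y350.EL

open Filter Topology Set
open scoped InnerProductSpace
open Pool.Agent.Y269.EL

noncomputable section

variable {H : Type} [NormedAddCommGroup H] [InnerProductSpace ℂ H] [CompleteSpace H]

/-- a bounded strongly continuous family applied to a continuous family of vectors -/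
lemma apply_cont {T : Type} [TopologicalSpace T] {D : Set T} {F : T → (H →L[ℂ] H)}
    {k : T → H} (hb : ∃ C : ℝ, ∀ z ∈ D, ‖F z‖ ≤ C)
    (hF : ∀ ξ : H, ContinuousOn (fun z => F z ξ) D) (hk : ContinuousOn k D) :
    ContinuousOn (fun z => F z (k z)) D := by
  obtain ⟨C, hC⟩ := hb
  intro z0 hz0
  have h1 : Tendsto (fun z => F z (k z0)) (𝓝[D] z0) (𝓝 (F z0 (k z0))) := hF (k z0) z0 hz0
  have h2 : Tendsto (fun z => F z (k z - k z0)) (𝓝[D] z0) (𝓝 0) := by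
    have h3 : Tendsto (fun z => |C| * ‖k z - k z0‖) (𝓝[D] z0) (𝓝 0) := by
      have h4 : Tendsto (fun z => k z - k z0) (𝓝[D] z0) (𝓝 (k z0 - k z0)) :=
        (hk z0 hz0).sub tendsto_const_nhds
      rw [sub_self] at h4
      have h5 := (h4.norm).const_mul |C|
      simpa using h5
    apply squeeze_zero_norm' _ h3
    filter_upwards [self_mem_nhdsWithin] with z hz
    calc ‖F z (k z - k z0)‖ ≤ ‖F z‖ * ‖k z - k z0‖ := (F z).le_opNorm _
      _ ≤ |C| * ‖k z - k z0‖ := by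
          gcongr
          exact (hC z hz).trans (le_abs_self C)
  have h6 := h1.add h2
  rw [add_zero] at h6
  refine Tendsto.congr (fun z => ?_) h6
  simp

lemma proj_norm_le {p : H →L[ℂ] H} (h1 : star p = p) (h2 : p * p = p) : ‖p‖ ≤ 1 := by
  have h3 : ‖p‖ * ‖p‖ = ‖p‖ := by
    have := CStarRing.norm_star_mul_self (x := p)
    rw [h1, h2] at this
    exact this.symm
  by_contra h
  push Not at h
  have : ‖p‖ * 1 < ‖p‖ * ‖p‖ := by
    apply mul_lt_mul_of_pos_left h; linarith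
  linarith

lemma proj_zero {p : H →L[ℂ] H} (h1 : star p = p) (h2 : p * p = p) (h : ‖p‖ ≤ 1 / 2) :
    p = 0 := by
  have h3 : ‖p‖ * ‖p‖ = ‖p‖ := by
    have := CStarRing.norm_star_mul_self (x := p)
    rw [h1, h2] at this
    exact this.symm
  have h4 : ‖p‖ = 0 := by
    by_contra h5
    have h6 : 0 < ‖p‖ := lt_of_le_of_ne (norm_nonneg _) (Ne.symm h5)
    have : ‖p‖ = 1 := by
      apply mul_left_cancel₀ h5
      rw [h3, mul_one]
    linarith
  exact norm_eq_zero.mp h4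

/-- the vectors `v l` -/
def vv (G : Geo H) (P : ℝ → Pt → Pt → (H →L[ℂ] H) → (H →L[ℂ] H)) (a : Pt → (H →L[ℂ] H))
    (e : H) : ℕ → Pt → H
  | 0, u => a u (G.S1 (P 0 u u 1 e))
  | l + 1, u => a u (G.S2 (vv G P a e l u))

section algebra

variable {G : Geo H} {P : ℝ → Pt → Pt → (H →L[ℂ] H) → (H →L[ℂ] H)} {a : Pt → (H →L[ℂ] H)}
variable {e : H}

lemma star_mul_apply (x y : H →L[ℂ] H) (ξ ζ : H) :
    ⟪x ξ, y ζ⟫_ℂ = ⟪ξ, (star x * y) ζ⟫_ℂ := by
  rw [mul_apply_eq_comp, ContinuousLinearMap.star_eq_adjoint,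
    ContinuousLinearMap.adjoint_inner_right]

lemma mul_app (x y : H →L[ℂ] H) (ξ : H) : x (y ξ) = (x * y) ξ := rfl

variable (hG : G.OK) (ha : Dbl G P a) {u : Pt} (hu : u ∈ XX G.d)
  (hc1 : star (P 0 u u 1) = P 0 u u 1) (hc2 : P 0 u u 1 * P 0 u u 1 = P 0 u u 1)

include hG ha hu hc1 hc2

lemma cv0 : P 0 u u 1 (vv G P a e 0 u) = vv G P a e 0 u := by
  have h1 : P 0 u u 1 * a u * G.S1 * P 0 u u 1 = a u * G.S1 * P 0 u u 1 := by
    rw [← ha.range u hu]
    have e1 : a u * star (a u) * a u = a u * (star (a u) * a u) := mul_assoc _ _ _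
    rw [e1, ha.source u hu, ha.range u hu]
    have s21 : star G.S2 * G.S1 = 0 := by
      rw [← star_star (star G.S2 * G.S1), star_mul, star_star, hG.s12, star_zero]
    calc a u * (G.S1 * P 0 u u 1 * star G.S1 + G.S2 * P 0 u u 1 * star G.S2) * G.S1 * P 0 u u 1
        = a u * (G.S1 * P 0 u u 1 * (star G.S1 * G.S1) +
            G.S2 * P 0 u u 1 * (star G.S2 * G.S1)) * P 0 u u 1 := by noncomm_ring
      _ = a u * G.S1 * (P 0 u u 1 * P 0 u u 1) := by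
          rw [hG.s11, s21]; noncomm_ring
      _ = _ := by rw [hc2]
  have h2 := congrArg (fun x : H →L[ℂ] H => x e) h1
  simpa [vv, mul_apply_eq_comp] using h2

lemma cvS (ζ : H) (hζ : P 0 u u 1 ζ = ζ) : P 0 u u 1 (a u (G.S2 ζ)) = a u (G.S2 ζ) := by
  have h1 : P 0 u u 1 * a u * G.S2 = a u * G.S2 * P 0 u u 1 := by
    rw [← ha.range u hu]
    have e1 : a u * star (a u) * a u = a u * (star (a u) * a u) := mul_assoc _ _ _
    rw [e1, ha.source u hu, ha.range u hu]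
    calc a u * (G.S1 * P 0 u u 1 * star G.S1 + G.S2 * P 0 u u 1 * star G.S2) * G.S2
        = a u * (G.S1 * P 0 u u 1 * (star G.S1 * G.S2) +
            G.S2 * P 0 u u 1 * (star G.S2 * G.S2)) := by noncomm_ring
      _ = _ := by rw [hG.s12, hG.s22]; noncomm_ring
  have h2 := congrArg (fun x : H →L[ℂ] H => x ζ) h1
  simp only [mul_apply_eq_comp] at h2
  rw [h2, hζ]

lemma cvv (l : ℕ) : P 0 u u 1 (vv G P a e l u) = vv G P a e l u := by
  induction l with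
  | zero => exact cv0 hG ha hu hc1 hc2
  | succ l ih => exact cvS hG ha hu hc1 hc2 _ ih

lemma inner_S2 (ξ ζ : H) (hζ : P 0 u u 1 ζ = ζ) :
    ⟪a u (G.S2 ξ), a u (G.S2 ζ)⟫_ℂ = ⟪ξ, ζ⟫_ℂ := by
  rw [star_mul_apply (a u) (a u), ha.source u hu, mul_app _ G.S2, star_mul_apply G.S2]
  have h1 : star G.S2 * ((G.S1 * P 0 u u 1 * star G.S1 + G.S2 * P 0 u u 1 * star G.S2) * G.S2) =
      P 0 u u 1 := by
    have s21 : star G.S2 * G.S1 = 0 := by
      rw [← star_star (star G.S2 * G.S1), star_mul, star_star, hG.s12, star_zero]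
    calc _ = star G.S2 * G.S1 * P 0 u u 1 * (star G.S1 * G.S2) +
          (star G.S2 * G.S2) * P 0 u u 1 * (star G.S2 * G.S2) := by noncomm_ring
      _ = _ := by rw [hG.s12, hG.s22]; noncomm_ring
  rw [h1, hζ]

lemma inner_S1 (ξ ζ : H) (hζ : P 0 u u 1 ζ = ζ) :
    ⟪a u (G.S1 ξ), a u (G.S2 ζ)⟫_ℂ = 0 := by
  rw [star_mul_apply (a u) (a u), ha.source u hu, mul_app _ G.S2, star_mul_apply G.S1]
  have h1 : star G.S1 * ((G.S1 * P 0 u u 1 * star G.S1 + G.S2 * P 0 u u 1 * star G.S2) * G.S2) =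
      0 := by
    calc _ = star G.S1 * G.S1 * P 0 u u 1 * (star G.S1 * G.S2) +
          (star G.S1 * G.S2) * P 0 u u 1 * (star G.S2 * G.S2) := by noncomm_ring
      _ = _ := by rw [hG.s12]; noncomm_ring
  rw [h1]
  simp

lemma inner_11 : ⟪vv G P a e 0 u, vv G P a e 0 u⟫_ℂ = ⟪P 0 u u 1 e, P 0 u u 1 e⟫_ℂ := by
  unfold vv
  rw [star_mul_apply (a u) (a u), ha.source u hu, mul_app _ G.S1, star_mul_apply G.S1,
    mul_app _ (P 0 u u 1)]
  have h1 : star G.S1 * ((G.S1 * P 0 u u 1 * star G.S1 + G.S2 * P 0 u u 1 * star G.S2) * G.S1) *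
      P 0 u u 1 = P 0 u u 1 := by
    calc _ = star G.S1 * G.S1 * P 0 u u 1 * (star G.S1 * G.S1) * P 0 u u 1 +
          (star G.S1 * G.S2) * P 0 u u 1 * (star G.S2 * G.S1) * P 0 u u 1 := by noncomm_ring
      _ = P 0 u u 1 * P 0 u u 1 := by rw [hG.s12, hG.s11]; noncomm_ring
      _ = _ := hc2
  rw [h1]

lemma vv_inner (k l : ℕ) : ⟪vv G P a e k u, vv G P a e l u⟫_ℂ =
    if k = l then ((‖P 0 u u 1 e‖ ^ 2 : ℝ) : ℂ) else 0 := by
  induction k generalizing l with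
  | zero =>
    cases l with
    | zero =>
      rw [inner_11 hG ha hu hc1 hc2, if_pos rfl, inner_self_eq_norm_sq_to_K]
      push_cast
      rfl
    | succ l =>
      rw [if_neg (by omega)]
      exact inner_S1 hG ha hu hc1 hc2 _ _ (cvv hG ha hu hc1 hc2 l)
  | succ k ih =>
    cases l with
    | zero =>
      rw [if_neg (by omega), ← inner_conj_symm]
      have : ⟪vv G P a e 0 u, vv G P a e (k + 1) u⟫_ℂ = 0 :=
        inner_S1 hG ha hu hc1 hc2 _ _ (cvv hG ha hu hc1 hc2 k)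
      rw [this, map_zero]
    | succ l =>
      have h1 : ⟪vv G P a e (k + 1) u, vv G P a e (l + 1) u⟫_ℂ =
          ⟪vv G P a e k u, vv G P a e l u⟫_ℂ :=
        inner_S2 hG ha hu hc1 hc2 _ _ (cvv hG ha hu hc1 hc2 l)
      rw [h1, ih l]
      by_cases h : k = l
      · subst h; simp
      · rw [if_neg h, if_neg (by omega)]

lemma comb_norm (n : ℕ) (s : ℕ → ℝ) (hs : ∑ i ∈ Finset.range (n + 1), s i ^ 2 = 1) :
    ‖∑ l ∈ Finset.range (n + 1), ((s l : ℝ) : ℂ) • vv G P a e l u‖ = ‖P 0 u u 1 e‖ := by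
  have h1 : ‖∑ l ∈ Finset.range (n + 1), ((s l : ℝ) : ℂ) • vv G P a e l u‖ ^ 2 =
      ‖P 0 u u 1 e‖ ^ 2 := by
    have h2 : ((‖∑ l ∈ Finset.range (n + 1), ((s l : ℝ) : ℂ) • vv G P a e l u‖ ^ 2 : ℝ) : ℂ) =
        ((‖P 0 u u 1 e‖ ^ 2 : ℝ) : ℂ) := by
      have h3 := inner_self_eq_norm_sq_to_K (𝕜 := ℂ)
        (∑ l ∈ Finset.range (n + 1), ((s l : ℝ) : ℂ) • vv G P a e l u)
      have h4 : ((‖∑ l ∈ Finset.range (n + 1), ((s l : ℝ) : ℂ) • vv G P a e l u‖ ^ 2 : ℝ) : ℂ) =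
        ⟪∑ l ∈ Finset.range (n + 1), ((s l : ℝ) : ℂ) • vv G P a e l u,
          ∑ l ∈ Finset.range (n + 1), ((s l : ℝ) : ℂ) • vv G P a e l u⟫_ℂ := by
        rw [h3]; push_cast; rfl
      rw [h4, sum_inner]
      have h5 : ∀ k ∈ Finset.range (n + 1), ⟪((s k : ℝ) : ℂ) • vv G P a e k u,
          ∑ l ∈ Finset.range (n + 1), ((s l : ℝ) : ℂ) • vv G P a e l u⟫_ℂ =
          ((s k ^ 2 : ℝ) : ℂ) * ((‖P 0 u u 1 e‖ ^ 2 : ℝ) : ℂ) := by
        intro k hk
        rw [inner_sum, Finset.sum_eq_single k]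
        · rw [inner_smul_left, inner_smul_right, vv_inner hG ha hu hc1 hc2, if_pos rfl,
            Complex.conj_ofReal]
          push_cast
          ring
        · intro l _ hl
          rw [inner_smul_left, inner_smul_right, vv_inner hG ha hu hc1 hc2,
            if_neg (Ne.symm hl)]
          simp
        · intro h; exact absurd hk h
      rw [Finset.sum_congr rfl h5, ← Finset.sum_mul, ← Complex.ofReal_sum, hs]
      simp
    exact_mod_cast h2
  have h6 : 0 ≤ ‖∑ l ∈ Finset.range (n + 1), ((s l : ℝ) : ℂ) • vv G P a e l u‖ := norm_nonneg _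
  have h7 : 0 ≤ ‖P 0 u u 1 e‖ := norm_nonneg _
  exact (pow_left_inj₀ h6 h7 two_ne_zero).mp h1

lemma comb_fix (n : ℕ) (s : ℕ → ℝ) :
    P 0 u u 1 (∑ l ∈ Finset.range (n + 1), ((s l : ℝ) : ℂ) • vv G P a e l u) =
      ∑ l ∈ Finset.range (n + 1), ((s l : ℝ) : ℂ) • vv G P a e l u := by
  rw [map_sum]
  refine Finset.sum_congr rfl fun l _ => ?_
  rw [map_smul, cvv hG ha hu hc1 hc2]

end algebra

lemma const_zero {G : Geo H} {A : Amb H} {P : ℝ → Pt → Pt → (H →L[ℂ] H) → (H →L[ℂ] H)}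
    (hP : IsE A G P) (hproj : ProjValued A G P) (h0 : ∀ u ∈ XX G.d, P 0 u u 1 = 0) :
    ∀ t ∈ Icc (0 : ℝ) 1, ∀ u ∈ XX G.d, ∀ v ∈ XX G.d, ∀ g ∈ GM A, P t u v g = 0 := by
  obtain ⟨δ, hδ, hd⟩ := hP.eqc (1 / 2) (by norm_num)
  have key : ∀ n : ℕ, ∀ t ∈ Icc (0 : ℝ) 1, t ≤ n * (δ / 2) → ∀ u ∈ XX G.d, ∀ v ∈ XX G.d,
      ∀ g ∈ GM A, P t u v g = 0 := by
    intro n
    induction n with
    | zero =>
      intro t ht htn u hu v hv g hg
      have : t = 0 := le_antisymm (by simpa using htn) ht.1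
      rw [this, hP.bd0 u hu v hv g hg, h0 u hu]
    | succ n ih =>
      intro t ht htn u hu v hv g hg
      have ht' : max (t - δ / 2) 0 ∈ Icc (0 : ℝ) 1 :=
        ⟨le_max_right _ _, max_le (by linarith [ht.2]) zero_le_one⟩
      have htn' : max (t - δ / 2) 0 ≤ n * (δ / 2) := by
        apply max_le _ (by positivity)
        push_cast at htn
        linarith
      have h1 := ih _ ht' htn' u hu v hv g hg
      have h2 : |t - max (t - δ / 2) 0| < δ := by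
        rw [abs_lt]
        constructor
        · rcases max_cases (t - δ / 2) 0 with ⟨h, _⟩ | ⟨h, _⟩ <;> rw [h] <;> linarith [ht.1]
        · rcases max_cases (t - δ / 2) 0 with ⟨h, h'⟩ | ⟨h, h'⟩ <;> rw [h] <;> linarith [ht.1]
      have h3 := hd t ht _ ht' h2 u hu v hv g hg
      rw [h1, sub_zero] at h3
      obtain ⟨p1, p2⟩ := hproj t ht u hu v hv g hg
      exact proj_zero p1 p2 h3
  intro t ht u hu v hv g hg
  obtain ⟨n, hn⟩ := exists_nat_ge (t / (δ / 2))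
  exact key n t ht (by rwa [div_le_iff₀ (by positivity)] at hn) u hu v hv g hg

lemma normalize_sub {y y' : H} (hy : y ≠ 0) (hy' : y' ≠ 0) :
    ‖((‖y‖⁻¹ : ℝ) : ℂ) • y - ((‖y'‖⁻¹ : ℝ) : ℂ) • y'‖ ≤ 2 * ‖y - y'‖ / ‖y‖ := by
  have n1 : 0 < ‖y‖ := norm_pos_iff.mpr hy
  have n2 : 0 < ‖y'‖ := norm_pos_iff.mpr hy'
  have e : ((‖y‖⁻¹ : ℝ) : ℂ) • y - ((‖y'‖⁻¹ : ℝ) : ℂ) • y' =
      ((‖y‖⁻¹ : ℝ) : ℂ) • (y - y') + ((‖y‖⁻¹ - ‖y'‖⁻¹ : ℝ) : ℂ) • y' := by
    push_cast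
    rw [smul_sub, sub_smul]
    abel
  rw [e]
  refine (norm_add_le _ _).trans ?_
  rw [norm_smul, norm_smul, Complex.norm_real, Complex.norm_real, Real.norm_eq_abs,
    Real.norm_eq_abs, abs_of_pos (inv_pos.mpr n1)]
  have h1 : |‖y‖⁻¹ - ‖y'‖⁻¹| * ‖y'‖ = |‖y'‖ - ‖y‖| / ‖y‖ := by
    have : ‖y‖⁻¹ - ‖y'‖⁻¹ = (‖y'‖ - ‖y‖) / (‖y‖ * ‖y'‖) := by
      field_simp
    rw [this, abs_div, abs_mul, abs_of_pos n1, abs_of_pos n2]
    field_simp
  rw [h1]
  have h2 : |‖y'‖ - ‖y‖| ≤ ‖y - y'‖ := by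
    rw [abs_sub_comm]
    exact abs_norm_sub_norm_le _ _
  have h3 : |‖y'‖ - ‖y‖| / ‖y‖ ≤ ‖y - y'‖ / ‖y‖ := by gcongr
  calc ‖y‖⁻¹ * ‖y - y'‖ + |‖y'‖ - ‖y‖| / ‖y‖ ≤ ‖y‖⁻¹ * ‖y - y'‖ + ‖y - y'‖ / ‖y‖ := by linarith
    _ = _ := by field_simp; ring

lemma Y1_mem {A : Amb H} {G : Geo H} {D : Blk H} (hD : D.OK A G) (m : ℕ) {w : Pt}
    (hw : w ∈ XX (G.next A D).d) : Y1 D m w ∈ XX G.d := by
  intro k
  unfold Y1
  split_ifs with h
  · exact hD.p1_mem m k
  · have h1 := hw (c1 m k)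
    have h2 : (G.next A D).d (c1 m k) = G.d k := 
      rec3_c1 (fun m => 2 * (2 * ∑ k ∈ D.L m, G.cap k) + 1) (fun _ k => G.d k)
        (fun _ k => G.d k) m k
    rwa [h2] at h1

lemma Y2_mem {A : Amb H} {G : Geo H} {D : Blk H} (hD : D.OK A G) (m : ℕ) {w : Pt}
    (hw : w ∈ XX (G.next A D).d) : Y2 D m w ∈ XX G.d := by
  intro k
  unfold Y2
  split_ifs with h
  · exact hD.p2_mem m k
  · have h1 := hw (c2 m k)
    have h2 : (G.next A D).d (c2 m k) = G.d k := 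
      rec3_c2 (fun m => 2 * (2 * ∑ k ∈ D.L m, G.cap k) + 1) (fun _ k => G.d k)
        (fun _ k => G.d k) m k
    rwa [h2] at h1

lemma Y1_cont (D : Blk H) (m : ℕ) : Continuous (Y1 D m) := by
  apply continuous_pi
  intro k
  unfold Y1
  by_cases h : k ∈ D.L m
  · simp only [if_pos h]; exact continuous_const
  · simp only [if_neg h]; exact continuous_apply _

lemma Y2_cont (D : Blk H) (m : ℕ) : Continuous (Y2 D m) := by
  apply continuous_pi
  intro k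
  unfold Y2
  by_cases h : k ∈ D.L m
  · simp only [if_pos h]; exact continuous_const
  · simp only [if_neg h]; exact continuous_apply _

lemma c1_inj {m k m' k' : ℕ} (h : c1 m k = c1 m' k') : m = m' ∧ k = k' := by
  unfold c1 at h
  rw [Nat.pair_eq_pair] at h
  omega

lemma c2_inj {m k m' k' : ℕ} (h : c2 m k = c2 m' k') : m = m' ∧ k = k' := by
  unfold c2 at h
  rw [Nat.pair_eq_pair] at h
  omega

lemma c1_ne_cS {m k m' : ℕ} : c1 m k ≠ cS m' := by
  unfold c1 cS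
  rw [Ne, Nat.pair_eq_pair]
  omega

lemma c2_ne_cS {m k m' : ℕ} : c2 m k ≠ cS m' := by
  unfold c2 cS
  rw [Ne, Nat.pair_eq_pair]
  omega

lemma c1_ne_c2 {m k m' k' : ℕ} : c1 m k ≠ c2 m' k' := by
  unfold c1 c2
  rw [Ne, Nat.pair_eq_pair]
  omega

/-- flips act on the first point by a flip or trivially -/
lemma Y1_flp (D : Blk H) (m n : ℕ) (w : Pt) :
    Y1 D m (flp n w) = Y1 D m w ∨ ∃ k, Y1 D m (flp n w) = flp k (Y1 D m w) := by
  by_cases h : ∃ k, n = c1 m k ∧ k ∉ D.L m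
  · right
    obtain ⟨k, rfl, hk⟩ := h
    refine ⟨k, ?_⟩
    funext i
    unfold flp
    by_cases hi : i = k
    · subst hi
      rw [Function.update_self]
      unfold Y1
      rw [if_neg hk, if_neg hk, Function.update_self]
    · rw [Function.update_of_ne hi]
      unfold Y1
      split_ifs with h1
      · rfl
      · rw [Function.update_of_ne]
        intro h2
        exact hi (c1_inj h2).2
  · left
    funext i
    unfold Y1
    split_ifs with h1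
    · rfl
    · unfold flp
      rw [Function.update_of_ne]
      intro h2
      exact h ⟨i, h2.symm, h1⟩

lemma Y2_flp (D : Blk H) (m n : ℕ) (w : Pt) :
    Y2 D m (flp n w) = Y2 D m w ∨ ∃ k, Y2 D m (flp n w) = flp k (Y2 D m w) := by
  by_cases h : ∃ k, n = c2 m k ∧ k ∉ D.L m
  · right
    obtain ⟨k, rfl, hk⟩ := h
    refine ⟨k, ?_⟩
    funext i
    unfold flp
    by_cases hi : i = k
    · subst hi
      rw [Function.update_self]
      unfold Y2
      rw [if_neg hk, if_neg hk, Function.update_self]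
    · rw [Function.update_of_ne hi]
      unfold Y2
      split_ifs with h1
      · rfl
      · rw [Function.update_of_ne]
        intro h2
        exact hi (c2_inj h2).2
  · left
    funext i
    unfold Y2
    split_ifs with h1
    · rfl
    · unfold flp
      rw [Function.update_of_ne]
      intro h2
      exact h ⟨i, h2.symm, h1⟩

/-- the vector `k` of the block `m` -/
def kk (A : Amb H) (G : Geo H) (D : Blk H) (P : ℝ → Pt → Pt → (H →L[ℂ] H) → (H →L[ℂ] H))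
    (a : Pt → (H →L[ℂ] H)) (e : H) (m : ℕ) (w : Pt) : H :=
  ∑ l ∈ Finset.range ((G.next A D).d (cS m) + 1),
    ((w (cS m) l : ℝ) : ℂ) • vv G P a e l (Y1 D m w)

/-- the projection applied to the vector `k` -/
def qk (A : Amb H) (G : Geo H) (D : Blk H) (P : ℝ → Pt → Pt → (H →L[ℂ] H) → (H →L[ℂ] H))
    (a : Pt → (H →L[ℂ] H)) (e : H) (m : ℕ) (τ : ℝ) (w : Pt) : H :=
  P τ (Y1 D m w) (Y2 D m w) (D.g m) (kk A G D P a e m w)

/-- the section of the block `m` -/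
def sx (A : Amb H) (G : Geo H) (D : Blk H) (P : ℝ → Pt → Pt → (H →L[ℂ] H) → (H →L[ℂ] H))
    (a : Pt → (H →L[ℂ] H)) (e : H) (m : ℕ) (τ : ℝ) (w : Pt) : H :=
  hh A G D m w (((‖qk A G D P a e m τ w‖⁻¹ : ℝ) : ℂ) • qk A G D P a e m τ w)

section even

variable {A : Amb H} {G : Geo H} {D : Blk H} {P : ℝ → Pt → Pt → (H →L[ℂ] H) → (H →L[ℂ] H)}
  {a : Pt → (H →L[ℂ] H)} {e : H}

lemma vv_flp (hP : IsE A G P) (ha : Dbl G P a) {u : Pt} (hu : u ∈ XX G.d)
    (hflp : ∀ w ∈ XX G.d, ∀ k, flp k w ∈ XX G.d) (k l : ℕ) :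
    vv G P a e l (flp k u) = vv G P a e l u := by
  induction l with
  | zero =>
    unfold vv
    rw [ha.even u hu k, hP.ev1 0 (by simp) u hu (flp k u) (hflp u hu k) 1 (one_mem _) k,
      hP.ev2 0 (by simp) u hu u hu 1 (one_mem _) k]
  | succ l ih =>
    rw [vv, vv, ha.even u hu k, ih]

lemma P_flp1 (hP : IsE A G P) {t : ℝ} (ht : t ∈ Icc (0 : ℝ) 1) {u v : Pt} (hu : u ∈ XX G.d)
    (hv : v ∈ XX G.d) {g : H →L[ℂ] H} (hg : g ∈ GM A) {u' : Pt}
    (h : u' = u ∨ ∃ k, u' = flp k u) : P t u' v g = P t u v g := by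
  rcases h with rfl | ⟨k, rfl⟩
  · rfl
  · exact hP.ev1 t ht u hu v hv g hg k

lemma P_flp2 (hP : IsE A G P) {t : ℝ} (ht : t ∈ Icc (0 : ℝ) 1) {u v : Pt} (hu : u ∈ XX G.d)
    (hv : v ∈ XX G.d) {g : H →L[ℂ] H} (hg : g ∈ GM A) {v' : Pt}
    (h : v' = v ∨ ∃ k, v' = flp k v) : P t u v' g = P t u v g := by
  rcases h with rfl | ⟨k, rfl⟩
  · rfl
  · exact hP.ev2 t ht u hu v hv g hg k

end even

lemma unit_norm {U : H →L[ℂ] H} (h : star U * U = 1) (ξ : H) : ‖U ξ‖ = ‖ξ‖ := by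
  have h1 : ⟪U ξ, U ξ⟫_ℂ = ⟪ξ, ξ⟫_ℂ := by
    rw [star_mul_apply U U, h, one_apply_eq_self]
  rw [inner_self_eq_norm_sq_to_K, inner_self_eq_norm_sq_to_K] at h1
  have h2 : ‖U ξ‖ ^ 2 = ‖ξ‖ ^ 2 := by exact_mod_cast h1
  exact (pow_left_inj₀ (norm_nonneg _) (norm_nonneg _) two_ne_zero).mp h2

lemma Y1_flp_cS (D : Blk H) (m m' : ℕ) (w : Pt) : Y1 D m (flp (cS m') w) = Y1 D m w := by
  funext i
  unfold Y1
  split_ifs with h1
  · rfl
  · unfold flp
    rw [Function.update_of_ne c1_ne_cS]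

lemma Y2_flp_cS (D : Blk H) (m m' : ℕ) (w : Pt) : Y2 D m (flp (cS m') w) = Y2 D m w := by
  funext i
  unfold Y2
  split_ifs with h1
  · rfl
  · unfold flp
    rw [Function.update_of_ne c2_ne_cS]

section main

variable {A : Amb H} {G : Geo H} {D : Blk H} {P : ℝ → Pt → Pt → (H →L[ℂ] H) → (H →L[ℂ] H)}
  {a : Pt → (H →L[ℂ] H)} {e : H}

lemma c_cont (hP : IsE A G P) (ξ : H) : ContinuousOn (fun u => P 0 u u 1 ξ) (XX G.d) := by
  have h1 : ContinuousOn (fun u : Pt => ((0:ℝ), u, u, (1 : H →L[ℂ] H))) (XX G.d) := by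
    apply Continuous.continuousOn
    fun_prop
  exact (hP.sc.cont ξ).comp h1 (fun u hu => ⟨by simp, hu, hu, one_mem _⟩)

lemma vv_cont (hP : IsE A G P) (ha : Dbl G P a) (l : ℕ) :
    ContinuousOn (vv G P a e l) (XX G.d) := by
  induction l with
  | zero =>
    exact apply_cont ha.sc.bdd ha.sc.cont (G.S1.continuous.comp_continuousOn (c_cont hP e))
  | succ l ih =>
    exact apply_cont ha.sc.bdd ha.sc.cont (G.S2.continuous.comp_continuousOn ih)

lemma kk_cont (hP : IsE A G P) (hD : D.OK A G) (ha : Dbl G P a) (m : ℕ) :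
    ContinuousOn (kk A G D P a e m) (XX (G.next A D).d) := by
  unfold kk
  apply continuousOn_finsetSum
  intro l _
  apply ContinuousOn.smul
  · apply Continuous.continuousOn
    exact Complex.continuous_ofReal.comp ((continuous_apply l).comp (continuous_apply (cS m)))
  · exact (vv_cont hP ha l).comp (Y1_cont D m).continuousOn (fun w hw => Y1_mem hD m hw)

lemma qk_cont (hP : IsE A G P) (hD : D.OK A G) (ha : Dbl G P a) (m : ℕ) :
    ContinuousOn (fun z : ℝ × Pt => qk A G D P a e m z.1 z.2)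
      (Icc (0 : ℝ) (D.t m) ×ˢ XX (G.next A D).d) := by
  have hmap : ∀ z ∈ (Icc (0 : ℝ) (D.t m) ×ˢ XX (G.next A D).d),
      (z.1, Y1 D m z.2, Y2 D m z.2, D.g m) ∈ Dom A G.d := by
    intro z hz
    exact ⟨⟨hz.1.1, hz.1.2.trans (hD.t_mem m).2⟩, Y1_mem hD m hz.2, Y2_mem hD m hz.2, hD.g_mem m⟩
  unfold qk
  refine apply_cont (F := fun z : ℝ × Pt => P z.1 (Y1 D m z.2) (Y2 D m z.2) (D.g m)) ?_ ?_ ?_
  · obtain ⟨C, hC⟩ := hP.sc.bdd
    exact ⟨C, fun z hz => hC _ (hmap z hz)⟩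
  · intro ξ
    have h1 : ContinuousOn (fun z : ℝ × Pt => (z.1, Y1 D m z.2, Y2 D m z.2, D.g m))
        (Icc (0 : ℝ) (D.t m) ×ˢ XX (G.next A D).d) := by
      apply Continuous.continuousOn
      exact continuous_fst.prodMk (((Y1_cont D m).comp continuous_snd).prodMk
        (((Y2_cont D m).comp continuous_snd).prodMk continuous_const))
    exact (hP.sc.cont ξ).comp h1 hmap
  · exact (kk_cont hP hD ha m).comp continuousOn_snd (fun z hz => hz.2)

end main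

theorem sec (H : Type) [NormedAddCommGroup H] [InnerProductSpace ℂ H] [CompleteSpace H]
    (hI : IseStmt H) : SecStmt H := by
  intro A G D hG hD P hP hproj hne a ha
  have h0 : ¬ ∀ u ∈ XX G.d, P 0 u u 1 = 0 := by
    intro h
    obtain ⟨t, ht, u, hu, v, hv, g, hg, hn⟩ := hne
    exact hn (const_zero hP hproj h t ht u hu v hv g hg)
  push Not at h0
  obtain ⟨u0, hu0, hc0⟩ := h0
  obtain ⟨e, he⟩ : ∃ e, P 0 u0 u0 1 e ≠ 0 := by
    by_contra h
    push Not at h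
    exact hc0 (ContinuousLinearMap.ext h)
  have hcproj : ∀ u ∈ XX G.d, star (P 0 u u 1) = P 0 u u 1 ∧ P 0 u u 1 * P 0 u u 1 = P 0 u u 1 :=
    fun u hu => hproj 0 (by simp) u hu u hu 1 (one_mem _)
  obtain ⟨η, hη⟩ : ∃ η, η = ‖P 0 u0 u0 1 e‖ / 2 := ⟨_, rfl⟩
  have hη0 : 0 < η := by
    have := norm_pos_iff.mpr he
    linarith
  have h1 : ∀ᶠ u in 𝓝[XX G.d] u0, η < ‖P 0 u u 1 e‖ :=
    (((c_cont hP e).norm) u0 hu0).eventually (lt_mem_nhds (by
      show η < ‖P 0 u0 u0 1 e‖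
      linarith))
  obtain ⟨V, hV, hu0V, hVsub⟩ := mem_nhdsWithin.mp h1
  obtain ⟨L0, U, hU, hUV⟩ := isOpen_pi_iff.mp hV u0 hu0V
  have hcyl : ∀ u ∈ XX G.d, (∀ k ∈ L0, u k ∈ U k) → η < ‖P 0 u u 1 e‖ :=
    fun u hu h => hVsub ⟨hUV (fun k hk => h k hk), hu⟩
  obtain ⟨δ, hδ, hd⟩ := hP.eqc (1 / 2) (by norm_num)
  obtain ⟨L, hL, hdense⟩ := hD.dense (L0.sup id + 1)
  have hO : IsOpen {z : ℝ × Pt × Pt × (H →L[ℂ] H) | z.1 < δ ∧ ∀ k ∈ L0, z.2.1 k ∈ U k} := by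
    have e1 : {z : ℝ × Pt × Pt × (H →L[ℂ] H) | z.1 < δ ∧ ∀ k ∈ L0, z.2.1 k ∈ U k} =
        {z : ℝ × Pt × Pt × (H →L[ℂ] H) | z.1 < δ} ∩
        ⋂ k ∈ L0, (fun z : ℝ × Pt × Pt × (H →L[ℂ] H) => z.2.1 k) ⁻¹' U k := by
      ext z; simp
    rw [e1]
    refine IsOpen.inter (isOpen_lt continuous_fst continuous_const) ?_
    exact isOpen_biInter_finset fun k hk => (hU k hk).1.preimage
      ((continuous_apply k).comp (continuous_fst.comp continuous_snd))
  have hinf := hdense _ hO ⟨(0, u0, u0, 1), ⟨hδ, fun k hk => (hU k hk).2⟩,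
    ⟨by simp, hu0, hu0, one_mem _⟩⟩
  obtain ⟨S, hS⟩ : ∃ S : Set ℕ, S = {m | Odd m ∧ D.L m = L ∧ (D.t m, D.p1 m, D.p2 m, D.g m) ∈
    {z : ℝ × Pt × Pt × (H →L[ℂ] H) | z.1 < δ ∧ ∀ k ∈ L0, z.2.1 k ∈ U k}} := ⟨_, rfl⟩
  rw [← hS] at hinf
  have hSm : ∀ m ∈ S, Odd m ∧ D.L m = L ∧ D.t m < δ ∧ ∀ k ∈ L0, D.p1 m k ∈ U k := by
    intro m hm
    rw [hS] at hm
    exact ⟨hm.1, hm.2.1, hm.2.2.1, hm.2.2.2⟩
  have hY : ∀ m ∈ S, ∀ w ∈ XX (G.next A D).d, η < ‖P 0 (Y1 D m w) (Y1 D m w) 1 e‖ := by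
    intro m hm w hw
    obtain ⟨_, hm1, _, hm3⟩ := hSm m hm
    apply hcyl _ (Y1_mem hD m hw)
    intro k hk
    unfold Y1
    rw [if_pos]
    · exact hm3 k hk
    · rw [hm1]
      apply hL
      rw [Finset.mem_range]
      exact Nat.lt_succ_of_le (Finset.le_sup (f := id) hk)
  have hkk : ∀ m, ∀ w ∈ XX (G.next A D).d,
      ‖kk A G D P a e m w‖ = ‖P 0 (Y1 D m w) (Y1 D m w) 1 e‖ := by
    intro m w hw
    have hu := Y1_mem hD m hw
    obtain ⟨p1, p2⟩ := hcproj _ hu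
    exact comb_norm hG ha hu p1 p2 _ _ (hw (cS m)).2
  have hkf : ∀ m, ∀ w ∈ XX (G.next A D).d,
      P 0 (Y1 D m w) (Y1 D m w) 1 (kk A G D P a e m w) = kk A G D P a e m w := by
    intro m w hw
    have hu := Y1_mem hD m hw
    obtain ⟨p1, p2⟩ := hcproj _ hu
    exact comb_fix hG ha hu p1 p2 _ _
  have hkpos : ∀ m ∈ S, ∀ w ∈ XX (G.next A D).d, 0 < ‖kk A G D P a e m w‖ := by
    intro m hm w hw
    rw [hkk m w hw]
    exact hη0.trans (hY m hm w hw)
  have hτ1 : ∀ m, ∀ τ ∈ Icc (0 : ℝ) (D.t m), τ ∈ Icc (0 : ℝ) 1 := fun m τ hτ =>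
    ⟨hτ.1, hτ.2.trans (hD.t_mem m).2⟩
  have hq : ∀ m ∈ S, ∀ τ ∈ Icc (0 : ℝ) (D.t m), ∀ w ∈ XX (G.next A D).d,
      ‖kk A G D P a e m w‖ / 2 ≤ ‖qk A G D P a e m τ w‖ := by
    intro m hm τ hτ w hw
    have h2 : |τ - 0| < δ := by
      rw [sub_zero, abs_of_nonneg hτ.1]
      exact hτ.2.trans_lt (hSm m hm).2.2.1
    have h3 := hd τ (hτ1 m τ hτ) 0 (by simp) h2 _ (Y1_mem hD m hw) _ (Y2_mem hD m hw) _
      (hD.g_mem m)
    rw [hP.bd0 _ (Y1_mem hD m hw) _ (Y2_mem hD m hw) _ (hD.g_mem m)] at h3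
    have h4 : kk A G D P a e m w = qk A G D P a e m τ w -
        (P τ (Y1 D m w) (Y2 D m w) (D.g m) - P 0 (Y1 D m w) (Y1 D m w) 1)
          (kk A G D P a e m w) := by
      rw [sub_apply, hkf m w hw]
      unfold qk
      abel
    have h5 : ‖(P τ (Y1 D m w) (Y2 D m w) (D.g m) - P 0 (Y1 D m w) (Y1 D m w) 1)
          (kk A G D P a e m w)‖ ≤ 1 / 2 * ‖kk A G D P a e m w‖ :=
      (ContinuousLinearMap.le_opNorm _ _).trans (mul_le_mul_of_nonneg_right h3 (norm_nonneg _))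
    have h6 : ‖kk A G D P a e m w‖ ≤ ‖qk A G D P a e m τ w‖ + 1 / 2 * ‖kk A G D P a e m w‖ := by
      calc ‖kk A G D P a e m w‖ = ‖qk A G D P a e m τ w -
            (P τ (Y1 D m w) (Y2 D m w) (D.g m) - P 0 (Y1 D m w) (Y1 D m w) 1)
              (kk A G D P a e m w)‖ := by rw [← h4]
        _ ≤ _ := (norm_sub_le _ _).trans (by linarith)
    linarith
  have hqpos : ∀ m ∈ S, ∀ τ ∈ Icc (0 : ℝ) (D.t m), ∀ w ∈ XX (G.next A D).d,
      0 < ‖qk A G D P a e m τ w‖ := fun m hm τ hτ w hw =>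
    lt_of_lt_of_le (by have := hkpos m hm w hw; linarith) (hq m hm τ hτ w hw)
  have hhU : ∀ m ∈ S, ∀ w ∈ XX (G.next A D).d, hh A G D m w =
      Ub A ((G.next A D).d (cS m)) (w (cS m)) := by
    intro m hm w hw
    unfold hh
    rw [if_neg]
    rw [Nat.not_even_iff_odd]
    exact (hSm m hm).1
  have hhs : ∀ m ∈ S, ∀ w ∈ XX (G.next A D).d, star (hh A G D m w) * hh A G D m w = 1 := by
    intro m hm w hw
    rw [hhU m hm w hw]
    obtain ⟨_, h3, h4, _⟩ := hI.ub A _ _ (hw (cS m))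
    rw [h3, h4]
  obtain ⟨μ, hμi, hμ⟩ : ∃ μ : ℕ → ℕ, Function.Injective μ ∧ ∀ j, μ j ∈ S :=
    ⟨fun j => (hinf.natEmbedding S j : ℕ), fun i j h => (hinf.natEmbedding S).injective
      (Subtype.ext h), fun j => (hinf.natEmbedding S j).2⟩
  refine ⟨μ, fun j τ w => sx A G D P a e (μ j) τ w, ?_⟩
  constructor
  · exact hμi
  · exact fun j => (hSm _ (hμ j)).1
  · -- norm
    intro j τ hτ w hw
    have hp := hqpos _ (hμ j) τ hτ w hw
    unfold sx
    rw [unit_norm (hhs _ (hμ j) w hw), norm_smul, Complex.norm_real, norm_inv, norm_norm,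
      inv_mul_cancel₀ hp.ne']
  · -- fixed
    intro j τ hτ w hw
    obtain ⟨p1, p2⟩ := hproj τ (hτ1 _ τ hτ) _ (Y1_mem hD (μ j) hw) _ (Y2_mem hD (μ j) hw) _
      (hD.g_mem (μ j))
    have h2 : P τ (Y1 D (μ j) w) (Y2 D (μ j) w) (D.g (μ j)) (qk A G D P a e (μ j) τ w) =
        qk A G D P a e (μ j) τ w := by
      unfold qk
      rw [mul_app, p2]
    unfold blkt sx
    rw [mul_apply_eq_comp, mul_apply_eq_comp, mul_app (star (hh A G D (μ j) w)),
      hhs _ (hμ j) w hw, one_apply_eq_self, map_smul, h2]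
  · -- continuity
    intro j
    have h2 := qk_cont (e := e) hP hD ha (μ j)
    have h3 : ContinuousOn (fun z : ℝ × Pt => Ub A ((G.next A D).d (cS (μ j))) (z.2 (cS (μ j))))
        (Icc (0 : ℝ) (D.t (μ j)) ×ˢ XX (G.next A D).d) := by
      apply Continuous.continuousOn
      exact (hI.ubc A _).comp ((continuous_apply (cS (μ j))).comp continuous_snd)
    have h4 : ContinuousOn (fun z : ℝ × Pt => ((‖qk A G D P a e (μ j) z.1 z.2‖⁻¹ : ℝ) : ℂ) •
        qk A G D P a e (μ j) z.1 z.2) (Icc (0 : ℝ) (D.t (μ j)) ×ˢ XX (G.next A D).d) := by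
      apply ContinuousOn.smul _ h2
      apply Complex.continuous_ofReal.comp_continuousOn
      apply ContinuousOn.inv₀ h2.norm
      intro z hz
      exact (hqpos _ (hμ j) z.1 hz.1 z.2 hz.2).ne'
    refine (h3.clm_apply h4).congr ?_
    intro z hz
    show sx A G D P a e (μ j) z.1 z.2 = _
    unfold sx
    rw [hhU _ (hμ j) z.2 hz.2]
  · -- even
    intro j τ hτ w hw k
    have hw' := hI.flp _ w hw k
    by_cases hk : k = cS (μ j)
    · subst hk
      have e1 : flp (cS (μ j)) w (cS (μ j)) = -(w (cS (μ j))) := by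
        unfold flp; rw [Function.update_self]
      have e2 : kk A G D P a e (μ j) (flp (cS (μ j)) w) = -kk A G D P a e (μ j) w := by
        unfold kk
        rw [Y1_flp_cS, e1, ← Finset.sum_neg_distrib]
        refine Finset.sum_congr rfl fun l _ => ?_
        rw [Pi.neg_apply, Complex.ofReal_neg, neg_smul]
      have e3 : qk A G D P a e (μ j) τ (flp (cS (μ j)) w) = -qk A G D P a e (μ j) τ w := by
        unfold qk
        rw [Y1_flp_cS, Y2_flp_cS, e2, map_neg]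
      have e4 : hh A G D (μ j) (flp (cS (μ j)) w) = -hh A G D (μ j) w := by
        rw [hhU _ (hμ j) _ hw', hhU _ (hμ j) _ hw, e1]
        exact (hI.ub A _ _ (hw (cS (μ j)))).2.2.2.2
      show sx A G D P a e (μ j) τ _ = sx A G D P a e (μ j) τ w
      unfold sx
      rw [e3, e4, norm_neg, smul_neg, map_neg, neg_apply, neg_neg]
    · have e1 : flp k w (cS (μ j)) = w (cS (μ j)) := by
        unfold flp; rw [Function.update_of_ne (Ne.symm hk)]
      have hvv : ∀ l, vv G P a e l (Y1 D (μ j) (flp k w)) = vv G P a e l (Y1 D (μ j) w) := by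
        intro l
        rcases Y1_flp D (μ j) k w with h | ⟨k', h⟩
        · rw [h]
        · rw [h]
          exact vv_flp hP ha (Y1_mem hD _ hw) (fun w hw k => hI.flp _ w hw k) k' l
      have e2 : kk A G D P a e (μ j) (flp k w) = kk A G D P a e (μ j) w := by
        unfold kk
        refine Finset.sum_congr rfl fun l _ => ?_
        rw [e1, hvv]
      have e3 : qk A G D P a e (μ j) τ (flp k w) = qk A G D P a e (μ j) τ w := by
        unfold qk
        rw [e2, P_flp1 hP (hτ1 _ τ hτ) (Y1_mem hD _ hw) (Y2_mem hD _ hw') (hD.g_mem _)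
          (Y1_flp D (μ j) k w), P_flp2 hP (hτ1 _ τ hτ) (Y1_mem hD _ hw) (Y2_mem hD _ hw)
          (hD.g_mem _) (Y2_flp D (μ j) k w)]
      have e4 : hh A G D (μ j) (flp k w) = hh A G D (μ j) w := by
        rw [hhU _ (hμ j) _ hw', hhU _ (hμ j) _ hw, e1]
      show sx A G D P a e (μ j) τ _ = sx A G D P a e (μ j) τ w
      unfold sx
      rw [e3, e4]
  · -- equicontinuity
    intro ε hε
    obtain ⟨δ', hδ', hd'⟩ := hP.eqc (ε / 4) (by positivity)
    refine ⟨δ', hδ', ?_⟩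
    intro j τ hτ τ' hτ' hττ w hw
    have h2 := hd' τ (hτ1 _ τ hτ) τ' (hτ1 _ τ' hτ') hττ _ (Y1_mem hD (μ j) hw) _
      (Y2_mem hD (μ j) hw) _ (hD.g_mem (μ j))
    have hp := hqpos _ (hμ j) τ hτ w hw
    have hp' := hqpos _ (hμ j) τ' hτ' w hw
    have hk := hkpos _ (hμ j) w hw
    have hb := hq _ (hμ j) τ hτ w hw
    have h3 : ‖qk A G D P a e (μ j) τ w - qk A G D P a e (μ j) τ' w‖ ≤
        ε / 4 * ‖kk A G D P a e (μ j) w‖ := by
      have e1 : qk A G D P a e (μ j) τ w - qk A G D P a e (μ j) τ' w =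
          (P τ (Y1 D (μ j) w) (Y2 D (μ j) w) (D.g (μ j)) -
            P τ' (Y1 D (μ j) w) (Y2 D (μ j) w) (D.g (μ j))) (kk A G D P a e (μ j) w) := by
        rw [sub_apply]
        rfl
      rw [e1]
      exact (ContinuousLinearMap.le_opNorm _ _).trans
        (mul_le_mul_of_nonneg_right h2 (norm_nonneg _))
    show ‖sx A G D P a e (μ j) τ w - sx A G D P a e (μ j) τ' w‖ ≤ ε
    unfold sx
    rw [← map_sub, unit_norm (hhs _ (hμ j) w hw)]
    refine (normalize_sub (norm_pos_iff.mp hp) (norm_pos_iff.mp hp')).trans ?_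
    rw [div_le_iff₀ hp]
    nlinarith

end

end Pool.Agent.Y350.EL
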