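import Pool.Agent.Y34.EL.Stm

/-! # JOIN and HALF: chains on spheres -/

set_option autoImplicit false

universe u v

open Metric Set Filter Topology
open Pool.Agent.TH60.FP Pool.Agent.Y34.HB Pool.Agent.Y34.EL

namespace Pool.Agent.Y350.EL

/-- concatenation of chains -/
theorem chain_append {X : Type u} [MetricSpace X] {o : X} {r : ℝ} {a b c : X} {N N' : ℝ}
    (h : Chain o r a b N) (h' : Chain o r b c N') : Chain o r a c (N + N') := by
  obtain ⟨n, y, hn, hy0, hyn, hyr, hys⟩ := h
  obtain ⟨n', y', hn', hy0', hyn', hyr', hys'⟩ := h'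
  refine ⟨n + n', fun i => if i ≤ n then y i else y' (i - n), ?_, ?_, ?_, ?_, ?_⟩
  · push_cast
    linarith
  · show (if 0 ≤ n then y 0 else y' (0 - n)) = a
    rw [if_pos (Nat.zero_le n), hy0]
  · show (if n + n' ≤ n then y (n + n') else y' (n + n' - n)) = c
    by_cases h0 : n' = 0
    · subst h0
      rw [if_pos (by omega)]
      rw [Nat.add_zero, hyn, ← hyn', hy0']
    · rw [if_neg (by omega), Nat.add_sub_cancel_left, hyn']
  · intro i hi
    show dist o (if i ≤ n then y i else y' (i - n)) = r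
    by_cases h0 : i ≤ n
    · rw [if_pos h0]
      exact hyr i h0
    · rw [if_neg h0]
      exact hyr' (i - n) (by omega)
  · intro i hi
    show dist (if i ≤ n then y i else y' (i - n)) (if i + 1 ≤ n then y (i + 1) else
      y' (i + 1 - n)) ≤ 1
    by_cases h0 : i + 1 ≤ n
    · rw [if_pos (by omega), if_pos h0]
      exact hys i (by omega)
    · by_cases h1 : i ≤ n
      · have h2 : i = n := by omega
        subst h2
        rw [if_pos le_rfl, if_neg h0, hyn, ← hy0', Nat.add_sub_cancel_left]
        have h3 := hys' 0 (by omega)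
        simpa using h3
      · rw [if_neg h1, if_neg h0]
        have h2 : i + 1 - n = i - n + 1 := by omega
        rw [h2]
        exact hys' (i - n) (by omega)

/-- points of a ray -/
theorem ray_dist {X : Type u} [MetricSpace X] {o : X} {c : ℝ → X} (hc : Ray o c) {t : ℝ}
    (ht : 0 ≤ t) : dist o (c t) = t := by
  have h := hc.2 0 t le_rfl ht
  rw [hc.1, zero_sub, abs_neg, abs_of_nonneg ht] at h
  exact h

theorem ray_on {X : Type u} [MetricSpace X] {o : X} {c : ℝ → X} (hc : Ray o c) {r t : ℝ}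
    (hr : 0 ≤ r) (hrt : r ≤ t) : On o (c t) r (c r) := by
  refine ⟨ray_dist hc hr, ?_⟩
  rw [hc.2 r t hr (hr.trans hrt), ray_dist hc (hr.trans hrt), abs_sub_comm,
    abs_of_nonneg (by linarith)]

theorem t_JOIN (_h1 : S_STEW.{u}) (h2 : S_PROJ.{u}) : S_JOIN.{u} := by
  intro X _ _ hX o c c' hc hc' hopp r hr
  have h3 : ∃ t : ℝ, 0 ≤ t ∧ ∀ m, dist (c t) m + dist m (c' t) = dist (c t) (c' t) →
      r < dist o m := by
    by_contra hcon
    push Not at hcon
    exact hopp ⟨r, hcon⟩
  obtain ⟨t, ht, hm⟩ := h3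
  have hrt : r < t := by
    have h4 := hm (c t) (by rw [dist_self, zero_add])
    rwa [ray_dist hc ht] at h4
  exact h2 X hX o (c t) (c' t) r (c r) (c' r) hr (fun m hm' => (hm m hm').le)
    (ray_on hc hr hrt.le) (ray_on hc' hr hrt.le)

theorem t_HALF (h1 : S_STEW.{u}) (h2 : S_PROJ.{u}) : S_HALF.{u} := by
  intro X _ _ hX o c c' hc hc' σ K _hσ hclo hne r hr
  obtain ⟨hex, huniq, -⟩ := h1 X hX
  obtain ⟨H, hH, hH0⟩ := hne
  have hK1 : dist (σ 0) o ≤ K := by
    have h3 := (hclo 0 le_rfl).1
    rwa [hc.1] at h3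
  have hK : 0 ≤ K := dist_nonneg.trans hK1
  set h : NNReal := ⟨r + K, by positivity⟩ with hh
  have hhv : (h : ℝ) = r + K := rfl
  set t : ℝ := r + K + (r + K) with ht
  have ht0 : 0 ≤ t := by positivity
  have hrt : r ≤ t := by linarith
  -- the points at height `h` are outside of the ball
  have hout : ∀ x : ℝ, r ≤ dist o (H (x, h)) := by
    intro x
    have h3 : dist (H (x, h)) (σ 0) ^ 2 = x ^ 2 + (r + K) ^ 2 := by
      rw [← hH0 0, hH]
      simp only [hhv, NNReal.coe_zero]
      ring
    have h4 : r + K ≤ dist (H (x, h)) (σ 0) := by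
      apply (sq_le_sq₀ (by positivity) dist_nonneg).1
      rw [h3]
      nlinarith [sq_nonneg x]
    have h5 := dist_triangle (H (x, h)) o (σ 0)
    rw [dist_comm (H (x, h)) o, dist_comm o (σ 0)] at h5
    linarith
  have hup : ∀ x : ℝ, dist (σ x) (H (x, h)) = r + K := by
    intro x
    have h3 : dist (σ x) (H (x, h)) ^ 2 = (r + K) ^ 2 := by
      rw [← hH0 x, hH]
      simp only [hhv, NNReal.coe_zero]
      ring
    exact (sq_eq_sq₀ dist_nonneg (by positivity)).1 h3
  -- the distances at height `h`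
  have hhor : ∀ x y : ℝ, dist (H (x, h)) (H (y, h)) = |x - y| := by
    intro x y
    have h3 : dist (H (x, h)) (H (y, h)) ^ 2 = |x - y| ^ 2 := by
      rw [hH, sq_abs]
      simp
    exact (sq_eq_sq₀ dist_nonneg (abs_nonneg _)).1 h3
  obtain ⟨a, ha⟩ := hex o (H (t, h)) r hr (hout t)
  obtain ⟨b, hb⟩ := hex o (H (-t, h)) r hr (hout (-t))
  have c1 : Chain o r (c r) a (7 * (r + 1)) := by
    refine h2 X hX o (c t) (H (t, h)) r (c r) a hr ?_ (ray_on hc hr hrt) ha
    intro m hm
    have h3 : dist (c t) (H (t, h)) ≤ K + (r + K) := by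
      have h4 := dist_triangle (c t) (σ t) (H (t, h))
      have h5 := (hclo t ht0).1
      rw [dist_comm] at h5
      rw [hup t] at h4
      linarith
    have h6 : dist (c t) m ≤ K + (r + K) := by
      have := dist_nonneg (x := m) (y := H (t, h))
      linarith
    have h7 := dist_triangle o m (c t)
    rw [ray_dist hc ht0, dist_comm m (c t)] at h7
    linarith
  have c2 : Chain o r a b (7 * (r + 1)) := by
    refine h2 X hX o (H (t, h)) (H (-t, h)) r a b hr ?_ ha hb
    intro m hm
    have h3 : dist (H (t, h)) (H (-t, h)) = 2 * t := by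
      rw [hhor, abs_of_nonneg (by linarith)]
      ring
    rw [h3] at hm
    set x' := dist (H (t, h)) m with hx'
    have hx0 : 0 ≤ x' := dist_nonneg
    have hx1 : x' ≤ 2 * t := by
      have := dist_nonneg (x := m) (y := H (-t, h))
      linarith
    have h4 : On (H (t, h)) (H (-t, h)) x' m := ⟨rfl, by rw [h3]; linarith⟩
    have h5 : On (H (t, h)) (H (-t, h)) x' (H (t - x', h)) := by
      refine ⟨?_, ?_⟩
      · rw [hhor, abs_of_nonneg (by linarith)]
        ring
      · rw [hhor, h3, abs_of_nonneg (by linarith)]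
        ring
    rw [huniq _ _ _ _ _ h4 h5]
    exact hout _
  have c3 : Chain o r b (c' r) (7 * (r + 1)) := by
    refine h2 X hX o (H (-t, h)) (c' t) r b (c' r) hr ?_ hb (ray_on hc' hr hrt)
    intro m hm
    have h3 : dist (H (-t, h)) (c' t) ≤ K + (r + K) := by
      have h4 := dist_triangle (H (-t, h)) (σ (-t)) (c' t)
      have h5 := (hclo t ht0).2
      rw [dist_comm (H (-t, h)) (σ (-t)), hup (-t)] at h4
      linarith
    have h6 : dist m (c' t) ≤ K + (r + K) := by
      have := dist_nonneg (x := H (-t, h)) (y := m)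
      linarith
    have h7 := dist_triangle o m (c' t)
    rw [ray_dist hc' ht0] at h7
    linarith
  have h8 := chain_append (chain_append c1 c2) c3
  have h9 : 7 * (r + 1) + 7 * (r + 1) + 7 * (r + 1) = 21 * (r + 1) := by ring
  rw [h9] at h8
  exact h8

end Pool.Agent.Y350.EL
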