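import Pool.Agent.Y34.EL.Stm

/-! # LRAY: limits of segments -/

set_option autoImplicit false

universe u v

open Metric Set Filter Topology
open Pool.Agent.TH60.FP Pool.Agent.Y34.HB Pool.Agent.Y34.EL

namespace Pool.Agent.Y350.EL

/-- two points of one segment -/
theorem on_dist (h1 : S_STEW.{u}) {X : Type u} [MetricSpace X] [ProperSpace X] (hX : CN X)
    {o q a b : X} {s t : ℝ} (hs : 0 ≤ s) (hst : s ≤ t) (ha : On o q s a) (hb : On o q t b) :
    dist a b = t - s := by
  obtain ⟨hex, huniq, -⟩ := h1 X hX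
  obtain ⟨a', ha'⟩ := hex o b s hs (by rw [hb.1]; exact hst)
  have h2 : dist a' b = t - s := by rw [ha'.2, hb.1]
  have h3 : On o q s a' := by
    refine ⟨ha'.1, le_antisymm ?_ ?_⟩
    · have := dist_triangle a' b q
      rw [h2, hb.2] at this
      linarith
    · have := dist_triangle o a' q
      rw [ha'.1] at this
      linarith
  rw [huniq o q s a a' ha h3]
  exact h2

theorem t_LRAY (h1 : S_STEW.{u}) (_h2 : S_CMP.{u}) : S_LRAY.{u} := by
  classical
  intro X _ _ hX o p hp
  obtain ⟨hex, huniq, -⟩ := h1 X hX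
  have hyn : ∀ (n : ℕ) (t : ℝ), ∃ y : X, dist o y ≤ |t| ∧
      (0 ≤ t → t ≤ dist o (p n) → On o (p n) t y) := by
    intro n t
    by_cases h : 0 ≤ t ∧ t ≤ dist o (p n)
    · obtain ⟨y, hy⟩ := hex o (p n) t h.1 h.2
      exact ⟨y, by rw [hy.1]; exact le_abs_self t, fun _ _ => hy⟩
    · exact ⟨o, by rw [dist_self]; exact abs_nonneg t, fun h3 h4 => absurd ⟨h3, h4⟩ h⟩
  choose y hy1 hy2 using hyn
  have hlim : ∀ t : ℝ, ∃ x : X, Tendsto (fun n => y n t) (hyperfilter ℕ : Filter ℕ) (𝓝 x) := by
    intro t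
    have hc : IsCompact (closedBall o |t|) := isCompact_closedBall _ _
    obtain ⟨x, -, hx⟩ := hc.ultrafilter_le_nhds ((hyperfilter ℕ).map (fun n => y n t)) (by
      rw [le_principal_iff]
      show (fun n => y n t) ⁻¹' (closedBall o |t|) ∈ hyperfilter ℕ
      refine mem_of_superset univ_mem fun n _ => ?_
      show y n t ∈ closedBall o |t|
      rw [mem_closedBall, dist_comm]
      exact hy1 n t)
    exact ⟨x, hx⟩
  choose η hη using hlim
  have hev : ∀ t : ℝ, ∀ᶠ n in (hyperfilter ℕ : Filter ℕ), t ≤ dist o (p n) :=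
    fun t => hp.eventually (eventually_ge_atTop t)
  refine ⟨η, ⟨?_, ?_⟩, ?_⟩
  · have h3 : (fun n => y n 0) = fun _ => o := by
      funext n
      have h4 := (hy2 n 0 le_rfl dist_nonneg).1
      exact (dist_eq_zero.1 h4).symm
    have h5 := hη 0
    rw [h3] at h5
    exact tendsto_nhds_unique h5 tendsto_const_nhds
  · have key : ∀ s t : ℝ, 0 ≤ s → s ≤ t → dist (η s) (η t) = t - s := by
      intro s t hs hst
      have h3 : Tendsto (fun n => dist (y n s) (y n t)) (hyperfilter ℕ : Filter ℕ)
        (𝓝 (dist (η s) (η t))) := (hη s).dist (hη t)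
      have h4 : Tendsto (fun n => dist (y n s) (y n t)) (hyperfilter ℕ : Filter ℕ)
          (𝓝 (t - s)) := by
        refine Tendsto.congr' ?_ tendsto_const_nhds
        filter_upwards [hev t] with n hn
        exact (on_dist h1 hX hs hst (hy2 n s hs (hst.trans hn)) (hy2 n t (hs.trans hst) hn)).symm
      exact tendsto_nhds_unique h3 h4
    intro s t hs ht
    rcases le_total s t with h | h
    · rw [key s t hs h, abs_sub_comm, abs_of_nonneg (by linarith)]
    · rw [dist_comm, key t s ht h, abs_of_nonneg (by linarith)]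
  · intro t ε ht hε
    filter_upwards [hev t, (hη t).eventually (ball_mem_nhds _ hε)] with n hn hn' z hz
    rw [huniq o (p n) t z (y n t) hz (hy2 n t ht hn)]
    exact (mem_ball.1 hn').le

end Pool.Agent.Y350.EL
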